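import Pool.Agent.W627.LT.Stm

/-!
# The bound for L(1, chi)
-/

set_option autoImplicit false

namespace Pool.Agent.W233.LT

open Finset Pool.Agent.H38R2.CG

theorem abs_chi_le (D : ℤ) (n : ℕ) : |(chi D n : ℝ)| ≤ 1 := by
  have h : |chi D n| ≤ 1 := by
    unfold chi
    rw [abs_mul, abs_pow]
    have h1 : |chi2 D| ≤ 1 := by
      unfold chi2
      split_ifs <;> simp
    have h2 : |jacobiSym D (n / 2 ^ padicValNat 2 n)| ≤ 1 := by
      rcases jacobiSym.trichotomy D (n / 2 ^ padicValNat 2 n) with h | h | h <;> rw [h] <;> simp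
    have h3 : |chi2 D| ^ padicValNat 2 n ≤ 1 := pow_le_one₀ (abs_nonneg _) h1
    calc |chi2 D| ^ padicValNat 2 n * |jacobiSym D (n / 2 ^ padicValNat 2 n)| ≤ 1 * 1 :=
          mul_le_mul h3 h2 (abs_nonneg _) zero_le_one
      _ = 1 := one_mul 1
  exact_mod_cast h

theorem ltl : Pool.Agent.W627.LT.S_L := by
  rintro ⟨C, -, hC⟩
  refine ⟨1 / Real.log 2 + 1 + |C|, ?_, fun D hD => ?_⟩
  · have : 0 < Real.log 2 := Real.log_pos (by norm_num)
    positivity
  · have hD1 : 1 < D := hD.1
    have h := hC D hD D (by omega)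
    have hDr : (2 : ℝ) ≤ D := by exact_mod_cast hD1
    have hlog2 : 0 < Real.log 2 := Real.log_pos (by norm_num)
    have hlog : Real.log 2 ≤ Real.log D := Real.log_le_log (by norm_num) hDr
    have h1 : Lone D ≤ ∑ n ∈ Finset.Icc 1 D, (chi D n : ℝ) / n +
        C * √(D : ℝ) * Real.log D / D := by
      have := le_abs_self (Lone D - ∑ n ∈ Finset.Icc 1 D, (chi D n : ℝ) / n)
      linarith
    have h2 : ∑ n ∈ Finset.Icc 1 D, (chi D n : ℝ) / n ≤ 1 + Real.log D := by
      calc ∑ n ∈ Finset.Icc 1 D, (chi D n : ℝ) / n ≤ ∑ n ∈ Finset.Icc 1 D, ((n : ℝ))⁻¹ := by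
            refine Finset.sum_le_sum fun n hn => ?_
            rw [div_eq_mul_inv]
            have h3 := (le_abs_self _).trans (abs_chi_le (D : ℤ) n)
            have h4 : (0 : ℝ) ≤ (n : ℝ)⁻¹ := by positivity
            calc (chi D n : ℝ) * (n : ℝ)⁻¹ ≤ 1 * (n : ℝ)⁻¹ := mul_le_mul_of_nonneg_right h3 h4
              _ = (n : ℝ)⁻¹ := one_mul _
        _ = ((harmonic D : ℚ) : ℝ) := by
            rw [harmonic_eq_sum_Icc]
            push_cast
            rfl
        _ ≤ 1 + Real.log D := harmonic_le_one_add_log D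
    have h5 : C * √(D : ℝ) * Real.log D / D ≤ |C| * Real.log D := by
      have hs : √(D : ℝ) ≤ D := by
        rw [Real.sqrt_le_left (by linarith)]
        nlinarith
      have hD0 : (0 : ℝ) < D := by linarith
      rw [div_le_iff₀ hD0]
      calc C * √(D : ℝ) * Real.log D ≤ |C| * √(D : ℝ) * Real.log D := by
            apply mul_le_mul_of_nonneg_right _ (by linarith)
            exact mul_le_mul_of_nonneg_right (le_abs_self C) (Real.sqrt_nonneg _)
        _ ≤ |C| * D * Real.log D := by
            apply mul_le_mul_of_nonneg_right _ (by linarith)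
            exact mul_le_mul_of_nonneg_left hs (abs_nonneg C)
        _ = |C| * Real.log D * D := by ring
    have h6 : 1 ≤ 1 / Real.log 2 * Real.log D := by
      rw [one_div, inv_mul_eq_div, le_div_iff₀ hlog2]
      linarith
    calc Lone D ≤ (1 + Real.log D) + |C| * Real.log D := by linarith
      _ ≤ (1 / Real.log 2 + 1 + |C|) * Real.log D := by
          have e : (1 / Real.log 2 + 1 + |C|) * Real.log D =
            1 / Real.log 2 * Real.log D + Real.log D + |C| * Real.log D := by ring
          rw [e]; linarith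

end Pool.Agent.W233.LT
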